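import Pool.Agent.Helper76.TC2.Goals

/-!
# Packet TC2-SC (MP_ccd65d_gt): scaling
-/

set_option autoImplicit false

open Set

namespace Pool.Agent.Helper69.TC2.SC

open Pool.Agent.Helper50.CT (rv)
open Pool.Agent.Helper76.TC (TorusMetric Pack Near IsTorus fo med mm uu dd Cell)
open Pool.Agent.Helper76.TC2

theorem t : S_SC := by
  intro n d l hl
  refine ⟨?_, ?_, ?_⟩
  · intro h
    refine ⟨?_, ?_, ?_, ?_⟩
    · intro x y
      show l * d x y = l * d y x
      rw [h.symm x y]
    · intro x y z
      show l * d x z ≤ l * d x y + l * d y z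
      have := mul_le_mul_of_nonneg_left (h.triangle x y z) hl.le
      linarith
    · intro k x y
      show l * d (rv k + x) (rv k + y) = l * d x y
      rw [h.periodic k x y]
    · obtain ⟨c, C, hc, hb⟩ := h.bilip
      refine ⟨l * c, l * C, mul_pos hl hc, fun x y => ⟨?_, ?_⟩⟩
      · show l * c * ‖x - y‖ ≤ l * d x y
        rw [mul_assoc]
        exact mul_le_mul_of_nonneg_left (hb x y).1 hl.le
      · show l * d x y ≤ l * C * ‖x - y‖
        rw [mul_assoc]
        exact mul_le_mul_of_nonneg_left (hb x y).2 hl.le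
  · intro h x y
    obtain ⟨γ, h0, h1, h2⟩ := h x y
    refine ⟨fun s => γ (s / l), ?_, ?_, ?_⟩
    · show γ (0 / l) = x
      rw [zero_div, h0]
    · show γ (l * d x y / l) = y
      rw [mul_div_cancel_left₀ _ hl.ne', h1]
    · intro s hs u hu
      have key : ∀ v ∈ Icc 0 (l * d x y), v / l ∈ Icc 0 (d x y) := by
        intro v hv
        exact ⟨div_nonneg hv.1 hl.le, by rw [div_le_iff₀ hl, mul_comm]; exact hv.2⟩
      show l * d (γ (s / l)) (γ (u / l)) = |s - u|
      rw [h2 (s / l) (key s hs) (u / l) (key u hu), ← sub_div, abs_div, abs_of_pos hl]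
      field_simp
  · intro C N h R0 x r R hr hrR hR F hF hsep
    have h1 := h (R / l) x (r / l) (R / l) (div_pos hr hl)
      (div_le_div_of_nonneg_right hrR hl.le) le_rfl F
      (fun y hy => by rw [le_div_iff₀ hl, mul_comm]; exact hF y hy)
      (fun y hy z hz hyz => by rw [div_lt_iff₀ hl, mul_comm]; exact hsep y hy z hz hyz)
    rwa [div_div_div_cancel_right₀ hl.ne'] at h1

end Pool.Agent.Helper69.TC2.SC
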